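import Mathlib
import Pool.Agent.W203.SP.Stm
set_option autoImplicit false

namespace Pool.Agent.W214.SP

open MeasureTheory Set Complex
open scoped ENNReal NNReal FourierTransform RealInnerProductSpace ContDiff
open Pool.Agent.W203.SP

lemma ee_cont : Continuous ee := by
  unfold ee
  fun_prop

lemma norm_ee (x : ℝ) : ‖ee x‖ = 1 := by
  unfold ee
  rw [Complex.norm_exp_ofReal_mul_I]

lemma hasDerivAt_E (t r q : ℝ) :
    HasDerivAt (fun q : ℝ => ee (t * q - r * q ^ 2))
      (2 * Real.pi * I * ((t : ℂ) - 2 * r * q) * ee (t * q - r * q ^ 2)) q := by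
  unfold ee
  have h1 : HasDerivAt (fun q : ℝ => 2 * Real.pi * (t * q - r * q ^ 2))
      (2 * Real.pi * (t * 1 - r * (2 * q))) q := by
    have h2 : HasDerivAt (fun q : ℝ => q ^ 2) (2 * q) q := by
      simpa using hasDerivAt_pow 2 q
    exact (((hasDerivAt_id q).const_mul t).sub (h2.const_mul r)).const_mul (2 * Real.pi)
  have h3 := ((h1.ofReal_comp).mul_const I).cexp
  convert h3 using 1
  push_cast
  ring

theorem t_K3 : S_K3 := by
  intro g hg hgc N
  induction N generalizing g with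
  | zero =>
    refine ⟨∫ q, ‖g q‖, integral_nonneg fun q => norm_nonneg _, fun t r _ => ?_⟩
    rw [pow_zero, mul_one]
    refine (norm_integral_le_integral_norm _).trans (le_of_eq ?_)
    congr 1
    ext q
    rw [norm_mul, norm_ee, mul_one]
  | succ N ih =>
    have hg1 : ContDiff ℝ ∞ (deriv g) := hg.iterate_deriv 1
    have hg1c : HasCompactSupport (deriv g) := hgc.deriv
    have hg2 : ContDiff ℝ ∞ (fun q : ℝ => (q : ℂ) * g q) := Complex.ofRealCLM.contDiff.mul hg
    have hg2c : HasCompactSupport (fun q : ℝ => (q : ℂ) * g q) := hgc.mul_left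
    obtain ⟨C1, hC1, h1⟩ := ih (deriv g) hg1 hg1c
    obtain ⟨C2, hC2, h2⟩ := ih (fun q : ℝ => (q : ℂ) * g q) hg2 hg2c
    refine ⟨(C1 + 4 * Real.pi * C2) / (2 * Real.pi), by positivity, fun t r ht => ?_⟩
    have hcE : Continuous (fun q : ℝ => ee (t * q - r * q ^ 2)) :=
      ee_cont.comp (by fun_prop)
    have hd : ∀ q : ℝ, HasDerivAt (fun q : ℝ => g q * ee (t * q - r * q ^ 2))
        (deriv g q * ee (t * q - r * q ^ 2) +
          g q * (2 * Real.pi * I * ((t : ℂ) - 2 * r * q) * ee (t * q - r * q ^ 2))) q := by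
      intro q
      exact ((hg.differentiable (by simp)) q).hasDerivAt.mul (hasDerivAt_E t r q)
    have hi1 : Integrable (fun q : ℝ => deriv g q * ee (t * q - r * q ^ 2)) :=
      (hg1.continuous.mul hcE).integrable_of_hasCompactSupport (hg1c.mul_right)
    have hi2 : Integrable (fun q : ℝ => ((q : ℂ) * g q) * ee (t * q - r * q ^ 2)) :=
      (hg2.continuous.mul hcE).integrable_of_hasCompactSupport (hg2c.mul_right)
    have hi0 : Integrable (fun q : ℝ => g q * ee (t * q - r * q ^ 2)) :=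
      (hg.continuous.mul hcE).integrable_of_hasCompactSupport (hgc.mul_right)
    have he : ∀ q : ℝ, (deriv g q * ee (t * q - r * q ^ 2) +
          g q * (2 * Real.pi * I * ((t : ℂ) - 2 * r * q) * ee (t * q - r * q ^ 2))) =
        deriv g q * ee (t * q - r * q ^ 2) +
          ((2 * Real.pi * I * t) * (g q * ee (t * q - r * q ^ 2)) -
          (4 * Real.pi * I * r) * (((q : ℂ) * g q) * ee (t * q - r * q ^ 2))) := by
      intro q
      ring
    have hz := integral_eq_zero_of_hasDerivAt_of_integrable hd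
      (by
        simp_rw [he]
        exact hi1.add ((hi0.const_mul _).sub (hi2.const_mul _))) hi0
    simp_rw [he] at hz
    have k1 := integral_sub (hi0.const_mul (2 * Real.pi * I * t))
      (hi2.const_mul (4 * Real.pi * I * r))
    have k2 := integral_add hi1 ((hi0.const_mul (2 * Real.pi * I * t)).sub
      (hi2.const_mul (4 * Real.pi * I * r)))
    simp only [Pi.sub_apply] at k2
    rw [k2, k1, integral_const_mul, integral_const_mul] at hz
    obtain ⟨A0, hA0⟩ : ∃ A0, A0 = ∫ q, g q * ee (t * q - r * q ^ 2) := ⟨_, rfl⟩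
    obtain ⟨A1, hA1⟩ : ∃ A1, A1 = ∫ q, deriv g q * ee (t * q - r * q ^ 2) := ⟨_, rfl⟩
    obtain ⟨A2, hA2⟩ : ∃ A2, A2 = ∫ q : ℝ, (q : ℂ) * g q * ee (t * q - r * q ^ 2) := ⟨_, rfl⟩
    rw [← hA0, ← hA1, ← hA2] at hz
    rw [← hA0]
    have b1 := h1 t r ht
    have b2 := h2 t r ht
    rw [← hA1] at b1
    rw [← hA2] at b2
    have e1 : (2 * Real.pi * I * t) * A0 = (4 * Real.pi * I * r) * A2 - A1 := by
      linear_combination hz
    have e2 : 2 * Real.pi * |t| * ‖A0‖ ≤ 4 * Real.pi * |r| * ‖A2‖ + ‖A1‖ := by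
      have := congrArg norm e1
      have h5 : ‖(2 * Real.pi * I * t) * A0‖ = 2 * Real.pi * |t| * ‖A0‖ := by
        rw [norm_mul, norm_mul, norm_mul, norm_mul, Complex.norm_I, Complex.norm_real,
          Complex.norm_real, Real.norm_eq_abs, Real.norm_eq_abs, abs_of_pos Real.pi_pos]
        simp
      have h6 : ‖(4 * Real.pi * I * r) * A2‖ = 4 * Real.pi * |r| * ‖A2‖ := by
        rw [norm_mul, norm_mul, norm_mul, norm_mul, Complex.norm_I, Complex.norm_real,
          Complex.norm_real, Real.norm_eq_abs, Real.norm_eq_abs, abs_of_pos Real.pi_pos]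
        simp
      rw [← h5, ← h6, this]
      exact norm_sub_le _ _
    have ht0 : 0 < |t| := abs_pos.mpr ht
    obtain ⟨X, hX⟩ : ∃ X, X = ((1 + |r|) / |t|) ^ N := ⟨_, rfl⟩
    have hX0 : 0 ≤ X := by rw [hX]; positivity
    rw [← hX] at b1 b2
    rw [pow_succ, ← hX]
    have hpi := Real.pi_pos
    have e3 : 2 * Real.pi * |t| * ‖A0‖ ≤ (C1 + 4 * Real.pi * C2) * (1 + |r|) * X := by
      have hr0 := abs_nonneg r
      have f1 : 4 * Real.pi * |r| * ‖A2‖ ≤ 4 * Real.pi * |r| * (C2 * X) :=
        mul_le_mul_of_nonneg_left b2 (by positivity)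
      have f2 : 0 ≤ 4 * Real.pi * (C2 * X) := by positivity
      have f3 : 0 ≤ C1 * |r| * X := by positivity
      nlinarith
    have e4 : (C1 + 4 * Real.pi * C2) / (2 * Real.pi) * (X * ((1 + |r|) / |t|)) =
        ((C1 + 4 * Real.pi * C2) * (1 + |r|) * X) / (2 * Real.pi * |t|) := by
      field_simp
    rw [e4, le_div_iff₀ (by positivity)]
    linarith

end Pool.Agent.W214.SP
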